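import Mathlib

/-!
# Averages over the subsets with a given number of elements
-/

set_option autoImplicit false

namespace Pool.Agent.Helper5.RC

open Finset

/-- the ratio of binomial coefficients -/
theorem choose_ratio {n M : ℕ} (hM : M ≤ n) : ∀ k, k ≤ M →
    (n - k).choose (M - k) * n ^ k ≤ n.choose M * M ^ k := by
  intro k
  induction k with
  | zero => intro _; simp
  | succ k ih =>
    intro hk
    have h1 := ih (by omega)
    obtain ⟨a, ha⟩ : ∃ a, n - k = a + 1 := ⟨n - k - 1, by omega⟩
    obtain ⟨b, hb⟩ : ∃ b, M - k = b + 1 := ⟨M - k - 1, by omega⟩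
    have e1 : n - (k + 1) = a := by omega
    have e2 : M - (k + 1) = b := by omega
    rw [ha, hb] at h1
    rw [e1, e2]
    have h2 := Nat.add_one_mul_choose_eq a b
    have h3 : (b + 1) * n ≤ M * (a + 1) := by
      have ea : (a + 1) + k = n := by omega
      have eb : (b + 1) + k = M := by omega
      have hab : b ≤ a := by omega
      rw [← ea, ← eb]
      nlinarith [Nat.mul_le_mul_left k hab]
    refine Nat.le_of_mul_le_mul_left ?_ (Nat.succ_pos a)
    calc (a + 1) * (a.choose b * n ^ (k + 1)) = ((a + 1) * a.choose b) * n ^ k * n := by ring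
      _ = ((a + 1).choose (b + 1) * (b + 1)) * n ^ k * n := by rw [h2]
      _ = ((a + 1).choose (b + 1) * n ^ k) * ((b + 1) * n) := by ring
      _ ≤ (n.choose M * M ^ k) * (M * (a + 1)) := Nat.mul_le_mul h1 h3
      _ = (a + 1) * (n.choose M * M ^ (k + 1)) := by ring

variable {α : Type} [DecidableEq α]

/-- the subsets that contain a given set -/
theorem card_super (L F : Finset α) (M : ℕ) (hF : F ⊆ L) (hM : M ≤ L.card) :
    ((powersetCard M L).filter fun S => F ⊆ S).card * L.card ^ F.card ≤
      (powersetCard M L).card * M ^ F.card := by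
  rw [card_powersetCard]
  by_cases hk : F.card ≤ M
  · refine le_trans (Nat.mul_le_mul_right _ ?_) (choose_ratio hM F.card hk)
    have e : (L.card - F.card).choose (M - F.card) = (powersetCard (M - F.card) (L \ F)).card := by
      rw [card_powersetCard, card_sdiff_of_subset hF]
    rw [e]
    refine card_le_card_of_injOn (fun S => S \ F) ?_ ?_
    · intro S hS
      simp only [coe_filter, mem_powersetCard, Set.mem_setOf_eq] at hS
      simp only [mem_coe, mem_powersetCard]
      refine ⟨sdiff_subset_sdiff hS.1.1 (Subset.refl _), ?_⟩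
      rw [card_sdiff_of_subset hS.2, hS.1.2]
    · intro S hS S' hS' h
      simp only [coe_filter, mem_powersetCard, Set.mem_setOf_eq] at hS hS'
      simp only at h
      rw [← sdiff_union_of_subset hS.2, ← sdiff_union_of_subset hS'.2, h]
  · rw [filter_false_of_mem, card_empty, zero_mul]
    · exact Nat.zero_le _
    · intro S hS hFS
      rw [mem_powersetCard] at hS
      have := card_le_card hFS
      omega

/-- some subset contains few of the given sets with `k` elements -/
theorem exists_few {β : Type} (L : Finset α) (Q : Finset β) (F : β → Finset α) (k M : ℕ)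
    (hF : ∀ q ∈ Q, F q ⊆ L ∧ (F q).card = k) (hM : M ≤ L.card) :
    ∃ S ⊆ L, S.card = M ∧ (Q.filter fun q => F q ⊆ S).card * L.card ^ k ≤ Q.card * M ^ k := by
  classical
  by_contra hcon
  push Not at hcon
  have hne : (powersetCard M L).Nonempty := powersetCard_nonempty.2 hM
  have h1 : (powersetCard M L).card * (Q.card * M ^ k) <
      ∑ S ∈ powersetCard M L, (Q.filter fun q => F q ⊆ S).card * L.card ^ k := by
    rw [← smul_eq_mul, ← sum_const]
    refine sum_lt_sum_of_nonempty hne fun S hS => ?_
    rw [mem_powersetCard] at hS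
    exact hcon S hS.1 hS.2
  have h2 : ∑ S ∈ powersetCard M L, (Q.filter fun q => F q ⊆ S).card * L.card ^ k =
      ∑ q ∈ Q, ((powersetCard M L).filter fun S => F q ⊆ S).card * L.card ^ k := by
    rw [← sum_mul, ← sum_mul]
    congr 1
    simp_rw [card_filter]
    rw [sum_comm]
  rw [h2] at h1
  have h3 : ∑ q ∈ Q, ((powersetCard M L).filter fun S => F q ⊆ S).card * L.card ^ k ≤
      ∑ _q ∈ Q, (powersetCard M L).card * M ^ k := by
    refine sum_le_sum fun q hq => ?_
    obtain ⟨h4, h5⟩ := hF q hq
    have h6 := card_super L (F q) M h4 hM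
    rw [h5] at h6
    exact h6
  rw [sum_const, smul_eq_mul] at h3
  have h4 : Q.card * ((powersetCard M L).card * M ^ k) =
      (powersetCard M L).card * (Q.card * M ^ k) := by ring
  omega

end Pool.Agent.Helper5.RC
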