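import Mathlib
import Pool.Agent.Helper5.RC.Sub

/-!
# The number of solutions of `a + b = c + d` modulo `m`
-/

set_option autoImplicit false

namespace Pool.Agent.Helper5.RC

open Finset

/-- the solutions of `a + b = c + d` modulo `m` -/
def sol (m : ℕ) (S : Finset ℕ) : Finset ((ℕ × ℕ) × (ℕ × ℕ)) :=
  ((S ×ˢ S) ×ˢ (S ×ˢ S)).filter fun q => (q.1.1 + q.1.2) % m = (q.2.1 + q.2.2) % m

theorem mem_sol {m : ℕ} {S : Finset ℕ} {q : (ℕ × ℕ) × (ℕ × ℕ)} : q ∈ sol m S ↔
    (q.1.1 ∈ S ∧ q.1.2 ∈ S) ∧ (q.2.1 ∈ S ∧ q.2.2 ∈ S) ∧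
      (q.1.1 + q.1.2) % m = (q.2.1 + q.2.2) % m := by
  unfold sol
  rw [mem_filter, mem_product, mem_product, mem_product]
  tauto

/-- the numbers that occur -/
def supp (q : (ℕ × ℕ) × (ℕ × ℕ)) : Finset ℕ := {q.1.1, q.1.2, q.2.1, q.2.2}

theorem card_supp {q : (ℕ × ℕ) × (ℕ × ℕ)} (h1 : q.1.1 ≠ q.1.2) (h2 : q.1.1 ≠ q.2.1)
    (h3 : q.1.1 ≠ q.2.2) (h4 : q.1.2 ≠ q.2.1) (h5 : q.1.2 ≠ q.2.2) (h6 : q.2.1 ≠ q.2.2) :
    (supp q).card = 4 := by
  unfold supp
  rw [card_insert_of_notMem, card_insert_of_notMem, card_insert_of_notMem, card_singleton]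
  · simpa using h6
  · simp [h4, h5]
  · simp [h1, h2, h3]

theorem supp_subset {q : (ℕ × ℕ) × (ℕ × ℕ)} {S : Finset ℕ} :
    supp q ⊆ S ↔ (q.1.1 ∈ S ∧ q.1.2 ∈ S) ∧ (q.2.1 ∈ S ∧ q.2.2 ∈ S) := by
  unfold supp
  rw [insert_subset_iff, insert_subset_iff, insert_subset_iff, singleton_subset_iff]
  tauto

theorem cancel {m a b b' : ℕ} (hb : b < m) (hb' : b' < m) (h : (a + b) % m = (a + b') % m) :
    b = b' := by
  have h1 : b ≡ b' [MOD m] := Nat.ModEq.add_left_cancel' a h
  exact Nat.ModEq.eq_of_lt_of_lt h1 hb hb'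

theorem cancel' {m a b b' : ℕ} (hb : b < m) (hb' : b' < m) (h : (b + a) % m = (b' + a) % m) :
    b = b' := by
  rw [add_comm b, add_comm b'] at h
  exact cancel hb hb' h

/-- there are few solutions with a coincidence -/
theorem card_same {m : ℕ} {S : Finset ℕ} (hS : S ⊆ range m) :
    ((sol m S).filter fun q => (supp q).card ≠ 4).card ≤ 4 * S.card ^ 2 := by
  have hlt : ∀ a ∈ S, a < m := fun a ha => mem_range.1 (hS ha)
  have h1 : (sol m S).filter (fun q => (supp q).card ≠ 4) ⊆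
      (((sol m S).filter (fun q => q.1.1 = q.2.1) ∪ (sol m S).filter (fun q => q.1.1 = q.2.2)) ∪
      (sol m S).filter (fun q => q.1.1 = q.1.2)) ∪ (sol m S).filter (fun q => q.2.1 = q.2.2) := by
    intro q hq
    rw [mem_filter] at hq
    obtain ⟨hq, hc⟩ := hq
    simp only [mem_union, mem_filter]
    by_contra hcon
    push Not at hcon
    obtain ⟨⟨⟨c1, c2⟩, c3⟩, c4⟩ := hcon
    have hm := mem_sol.1 hq
    obtain ⟨⟨ma, mb⟩, ⟨mc, md⟩, he⟩ := hm
    refine hc (card_supp (c3 hq) (c1 hq) (c2 hq) (fun h => ?_) (fun h => ?_) (c4 hq))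
    · rw [h, add_comm q.1.1] at he
      exact c2 hq (cancel (hlt _ ma) (hlt _ md) he)
    · rw [h] at he
      exact c1 hq (cancel' (hlt _ ma) (hlt _ mc) he)
  have hb : ∀ (P : (ℕ × ℕ) × (ℕ × ℕ) → Prop) [DecidablePred P]
      (f : (ℕ × ℕ) × (ℕ × ℕ) → ℕ × ℕ),
      (∀ q ∈ sol m S, P q → f q ∈ S ×ˢ S) →
      (∀ q ∈ sol m S, ∀ q' ∈ sol m S, P q → P q' → f q = f q' → q = q') →
      ((sol m S).filter P).card ≤ S.card ^ 2 := by
    intro P _ f h2 h3
    rw [sq, ← card_product]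
    refine card_le_card_of_injOn f (fun q hq => ?_) (fun q hq q' hq' he => ?_)
    · have := mem_filter.1 (mem_coe.1 hq)
      exact mem_coe.2 (h2 q this.1 this.2)
    · have h4 := mem_filter.1 (mem_coe.1 hq)
      have h5 := mem_filter.1 (mem_coe.1 hq')
      exact h3 q h4.1 q' h5.1 h4.2 h5.2 he
  have e1 : ((sol m S).filter (fun q => q.1.1 = q.2.1)).card ≤ S.card ^ 2 := by
    refine hb _ (fun q => q.1) ?_ ?_
    · intro q hq _
      exact mem_product.2 (mem_sol.1 hq).1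
    · intro q hq q' hq' hp hp' he
      have m1 := mem_sol.1 hq
      have m2 := mem_sol.1 hq'
      have f1 : q.1.2 = q.2.2 := by
        have := m1.2.2
        rw [← hp] at this
        exact cancel (hlt _ m1.1.2) (hlt _ m1.2.1.2) this
      have f2 : q'.1.2 = q'.2.2 := by
        have := m2.2.2
        rw [← hp'] at this
        exact cancel (hlt _ m2.1.2) (hlt _ m2.2.1.2) this
      refine Prod.ext he (Prod.ext ?_ ?_)
      · rw [← hp, ← hp', he]
      · rw [← f1, ← f2, he]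
  have e2 : ((sol m S).filter (fun q => q.1.1 = q.2.2)).card ≤ S.card ^ 2 := by
    refine hb _ (fun q => q.1) ?_ ?_
    · intro q hq _
      exact mem_product.2 (mem_sol.1 hq).1
    · intro q hq q' hq' hp hp' he
      have m1 := mem_sol.1 hq
      have m2 := mem_sol.1 hq'
      have f1 : q.1.2 = q.2.1 := by
        have := m1.2.2
        rw [← hp, add_comm q.2.1] at this
        exact cancel (hlt _ m1.1.2) (hlt _ m1.2.1.1) this
      have f2 : q'.1.2 = q'.2.1 := by
        have := m2.2.2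
        rw [← hp', add_comm q'.2.1] at this
        exact cancel (hlt _ m2.1.2) (hlt _ m2.2.1.1) this
      refine Prod.ext he (Prod.ext ?_ ?_)
      · rw [← f1, ← f2, he]
      · rw [← hp, ← hp', he]
  have e3 : ((sol m S).filter (fun q => q.1.1 = q.1.2)).card ≤ S.card ^ 2 := by
    refine hb _ (fun q => (q.1.1, q.2.1)) ?_ ?_
    · intro q hq _
      exact mem_product.2 ⟨(mem_sol.1 hq).1.1, (mem_sol.1 hq).2.1.1⟩
    · intro q hq q' hq' hp hp' he
      have m1 := mem_sol.1 hq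
      have m2 := mem_sol.1 hq'
      have he1 : q.1.1 = q'.1.1 := (Prod.ext_iff.1 he).1
      have he2 : q.2.1 = q'.2.1 := (Prod.ext_iff.1 he).2
      have f1 : q.1.2 = q'.1.2 := by rw [← hp, ← hp', he1]
      have f2 : q.2.2 = q'.2.2 := by
        have a1 := m1.2.2
        have a2 := m2.2.2
        rw [he1, f1, he2] at a1
        rw [a1] at a2
        exact cancel (hlt _ m1.2.1.2) (hlt _ m2.2.1.2) a2
      exact Prod.ext (Prod.ext he1 f1) (Prod.ext he2 f2)
  have e4 : ((sol m S).filter (fun q => q.2.1 = q.2.2)).card ≤ S.card ^ 2 := by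
    refine hb _ (fun q => (q.1.1, q.2.1)) ?_ ?_
    · intro q hq _
      exact mem_product.2 ⟨(mem_sol.1 hq).1.1, (mem_sol.1 hq).2.1.1⟩
    · intro q hq q' hq' hp hp' he
      have m1 := mem_sol.1 hq
      have m2 := mem_sol.1 hq'
      have he1 : q.1.1 = q'.1.1 := (Prod.ext_iff.1 he).1
      have he2 : q.2.1 = q'.2.1 := (Prod.ext_iff.1 he).2
      have f1 : q.2.2 = q'.2.2 := by rw [← hp, ← hp', he2]
      have f2 : q.1.2 = q'.1.2 := by
        have a1 := m1.2.2
        have a2 := m2.2.2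
        rw [he1, f1, he2, ← a2] at a1
        exact cancel (hlt _ m1.1.2) (hlt _ m2.1.2) a1
      exact Prod.ext (Prod.ext he1 f2) (Prod.ext he2 f1)
  refine (card_le_card h1).trans ?_
  refine (card_union_le _ _).trans ?_
  have h2 := card_union_le ((sol m S).filter (fun q => q.1.1 = q.2.1) ∪
    (sol m S).filter (fun q => q.1.1 = q.2.2)) ((sol m S).filter (fun q => q.1.1 = q.1.2))
  have h3 := card_union_le ((sol m S).filter (fun q => q.1.1 = q.2.1))
    ((sol m S).filter (fun q => q.1.1 = q.2.2))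
  omega

/-- a subset with few solutions -/
theorem exists_sub {m : ℕ} {L : Finset ℕ} (hL : L ⊆ range m) {M : ℕ} (hM : M ≤ L.card)
    (hL0 : 0 < L.card) : ∃ S ⊆ L, S.card = M ∧
      ((sol m S).card : ℝ) ≤ (sol m L).card * (M : ℝ) ^ 4 / (L.card : ℝ) ^ 4 + 4 * (M : ℝ) ^ 2 := by
  classical
  obtain ⟨S, hS, hc, h⟩ := exists_few L ((sol m L).filter fun q => (supp q).card = 4) supp 4 M
    (fun q hq => by
      have h1 := mem_filter.1 hq
      have h2 := mem_sol.1 h1.1
      exact ⟨supp_subset.2 ⟨h2.1, h2.2.1⟩, h1.2⟩) hM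
  refine ⟨S, hS, hc, ?_⟩
  have h1 : (sol m S).card ≤ (((sol m L).filter fun q => (supp q).card = 4).filter
      fun q => supp q ⊆ S).card + 4 * S.card ^ 2 := by
    rw [← card_filter_add_card_filter_not (s := sol m S) fun q => (supp q).card = 4]
    refine Nat.add_le_add (card_le_card fun q hq => ?_) (card_same (hS.trans hL))
    rw [mem_filter] at hq
    have h2 := mem_sol.1 hq.1
    rw [mem_filter, mem_filter]
    exact ⟨⟨mem_sol.2 ⟨⟨hS h2.1.1, hS h2.1.2⟩, ⟨hS h2.2.1.1, hS h2.2.1.2⟩, h2.2.2⟩, hq.2⟩,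
      supp_subset.2 ⟨h2.1, h2.2.1⟩⟩
  have h2 : (((sol m L).filter fun q => (supp q).card = 4).filter
      fun q => supp q ⊆ S).card * L.card ^ 4 ≤ (sol m L).card * M ^ 4 :=
    h.trans (Nat.mul_le_mul_right _ (card_le_card (filter_subset _ _)))
  have hLr : (0 : ℝ) < L.card := by exact_mod_cast hL0
  have h3 : ((((sol m L).filter fun q => (supp q).card = 4).filter
      fun q => supp q ⊆ S).card : ℝ) ≤ (sol m L).card * (M : ℝ) ^ 4 / (L.card : ℝ) ^ 4 := by
    rw [le_div_iff₀ (by positivity)]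
    exact_mod_cast h2
  have h4 : ((sol m S).card : ℝ) ≤ ((((sol m L).filter fun q => (supp q).card = 4).filter
      fun q => supp q ⊆ S).card : ℝ) + 4 * (S.card : ℝ) ^ 2 := by exact_mod_cast h1
  rw [hc] at h4
  linarith

/-- the lifts -/
def lift (m q : ℕ) (T : Finset ℕ) : Finset ℕ := (range (q * m)).filter fun x => x % m ∈ T

theorem lift_subset (m q : ℕ) (T : Finset ℕ) : lift m q T ⊆ range (q * m) := filter_subset _ _

theorem card_lift {m q : ℕ} {T : Finset ℕ} (hT : T ⊆ range m) :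
    (lift m q T).card = q * T.card := by
  have e : q * T.card = (T ×ˢ range q).card := by rw [card_product, card_range, mul_comm]
  rw [e]
  refine card_nbij' (fun x => (x % m, x / m)) (fun p => p.1 + m * p.2) ?_ ?_ ?_ ?_
  · intro x hx
    have h1 := mem_filter.1 (mem_coe.1 hx)
    have h2 := mem_range.1 h1.1
    have hm : 0 < m := Nat.pos_of_ne_zero fun h => by rw [h] at h2; simp at h2
    rw [mem_coe, mem_product, mem_range]
    exact ⟨h1.2, by
      show x / m < q
      rw [Nat.div_lt_iff_lt_mul hm]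
      exact h2⟩
  · intro p hp
    rw [mem_coe, mem_product, mem_range] at hp
    have h1 := mem_range.1 (hT hp.1)
    rw [mem_coe]
    unfold lift
    rw [mem_filter, mem_range]
    constructor
    · show p.1 + m * p.2 < q * m
      calc p.1 + m * p.2 < m + m * p.2 := Nat.add_lt_add_right h1 _
        _ = (p.2 + 1) * m := by ring
        _ ≤ q * m := Nat.mul_le_mul_right _ hp.2
    · show (p.1 + m * p.2) % m ∈ T
      rw [Nat.add_mul_mod_self_left, Nat.mod_eq_of_lt h1]
      exact hp.1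
  · intro x _
    exact Nat.mod_add_div x m
  · intro p hp
    rw [mem_coe, mem_product, mem_range] at hp
    have h1 := mem_range.1 (hT hp.1)
    have hm : 0 < m := by omega
    refine Prod.ext ?_ ?_
    · show (p.1 + m * p.2) % m = p.1
      rw [Nat.add_mul_mod_self_left, Nat.mod_eq_of_lt h1]
    · show (p.1 + m * p.2) / m = p.2
      rw [Nat.add_mul_div_left _ _ hm, Nat.div_eq_of_lt h1, zero_add]

theorem card_sol_lift (m q : ℕ) (T : Finset ℕ) :
    (sol (q * m) (lift m q T)).card ≤ q ^ 3 * (sol m T).card := by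
  have e : q ^ 3 * (sol m T).card =
      (sol m T ×ˢ (range q ×ˢ (range q ×ˢ range q))).card := by
    rw [card_product, card_product, card_product, card_range]
    ring
  rw [e]
  refine card_le_card_of_injOn (fun x => (((x.1.1 % m, x.1.2 % m), (x.2.1 % m, x.2.2 % m)),
    (x.1.1 / m, (x.1.2 / m, x.2.1 / m)))) ?_ ?_
  · intro x hx
    have h1 := mem_sol.1 (mem_coe.1 hx)
    obtain ⟨⟨ha, hb⟩, ⟨hc, hd⟩, he⟩ := h1
    unfold lift at ha hb hc hd
    rw [mem_filter, mem_range] at ha hb hc hd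
    have hm : 0 < m := Nat.pos_of_ne_zero fun h => by rw [h] at ha; simp at ha
    rw [mem_coe, mem_product, mem_product, mem_product, mem_range, mem_range, mem_range]
    refine ⟨mem_sol.2 ⟨⟨ha.2, hb.2⟩, ⟨hc.2, hd.2⟩, ?_⟩, ?_, ?_, ?_⟩
    · show (x.1.1 % m + x.1.2 % m) % m = (x.2.1 % m + x.2.2 % m) % m
      rw [← Nat.add_mod, ← Nat.add_mod]
      exact Nat.ModEq.of_mul_left q he
    · exact (Nat.div_lt_iff_lt_mul hm).2 ha.1
    · exact (Nat.div_lt_iff_lt_mul hm).2 hb.1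
    · exact (Nat.div_lt_iff_lt_mul hm).2 hc.1
  · intro x hx x' hx' h
    have h1 := mem_sol.1 (mem_coe.1 hx)
    have h2 := mem_sol.1 (mem_coe.1 hx')
    simp only [Prod.mk.injEq] at h
    obtain ⟨⟨⟨ga, gb⟩, gc, gd⟩, ka, kb, kc⟩ := h
    have fa : x.1.1 = x'.1.1 := by
      rw [← Nat.mod_add_div x.1.1 m, ← Nat.mod_add_div x'.1.1 m, ga, ka]
    have fb : x.1.2 = x'.1.2 := by
      rw [← Nat.mod_add_div x.1.2 m, ← Nat.mod_add_div x'.1.2 m, gb, kb]
    have fc : x.2.1 = x'.2.1 := by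
      rw [← Nat.mod_add_div x.2.1 m, ← Nat.mod_add_div x'.2.1 m, gc, kc]
    have fd : x.2.2 = x'.2.2 := by
      have a1 := h1.2.2
      have a2 := h2.2.2
      rw [fa, fb, fc] at a1
      rw [a1] at a2
      have b1 := mem_range.1 (lift_subset m q T h1.2.1.2)
      have b2 := mem_range.1 (lift_subset m q T h2.2.1.2)
      exact cancel b1 b2 a2
    exact Prod.ext (Prod.ext fa fb) (Prod.ext fc fd)

/-- one step -/
theorem step {m q : ℕ} {T : Finset ℕ} (hT : T ⊆ range m) (hT0 : 0 < T.card) (hq : 0 < q)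
    {M : ℕ} (hM : M ≤ q * T.card) : ∃ S ⊆ lift m q T, S.card = M ∧
      ((sol (q * m) S).card : ℝ) ≤
        (sol m T).card * (M : ℝ) ^ 4 / (q * (T.card : ℝ) ^ 4) + 4 * (M : ℝ) ^ 2 := by
  have hc := card_lift (q := q) hT
  obtain ⟨S, hS, hcS, h⟩ := exists_sub (lift_subset m q T) (M := M) (by rw [hc]; exact hM)
    (by rw [hc]; positivity)
  refine ⟨S, hS, hcS, h.trans ?_⟩
  rw [hc]
  push_cast
  have h1 : ((sol (q * m) (lift m q T)).card : ℝ) ≤ (q : ℝ) ^ 3 * (sol m T).card := by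
    exact_mod_cast card_sol_lift m q T
  have hqr : (0 : ℝ) < q := by exact_mod_cast hq
  have hTr : (0 : ℝ) < T.card := by exact_mod_cast hT0
  have h2 : ((sol (q * m) (lift m q T)).card : ℝ) * (M : ℝ) ^ 4 / ((q : ℝ) * T.card) ^ 4 ≤
      (sol m T).card * (M : ℝ) ^ 4 / (q * (T.card : ℝ) ^ 4) := by
    rw [div_le_div_iff₀ (by positivity) (by positivity)]
    calc ((sol (q * m) (lift m q T)).card : ℝ) * (M : ℝ) ^ 4 * (q * (T.card : ℝ) ^ 4)
        ≤ ((q : ℝ) ^ 3 * (sol m T).card) * (M : ℝ) ^ 4 * (q * (T.card : ℝ) ^ 4) := by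
          refine mul_le_mul_of_nonneg_right (mul_le_mul_of_nonneg_right h1 ?_) ?_ <;> positivity
      _ = _ := by ring
  linarith

end Pool.Agent.Helper5.RC
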