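import Mathlib
import Pool.Agent.Helper5.RC.En

/-!
# Coincidences
-/

set_option autoImplicit false

namespace Pool.Agent.Helper5.RC

open Finset

/-- coincidences, counted by values -/
theorem col_eq {α β γ : Type} [DecidableEq γ] (X : Finset α) (Y : Finset β) (f : α → γ)
    (g : β → γ) (I : Finset γ) (hI : ∀ a ∈ X, f a ∈ I) :
    ((X ×ˢ Y).filter fun p => f p.1 = g p.2).card =
      ∑ d ∈ I, (X.filter fun a => f a = d).card * (Y.filter fun b => g b = d).card := by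
  rw [card_eq_sum_card_fiberwise (f := fun p : α × β => f p.1) (t := I)]
  · refine sum_congr rfl fun d _ => ?_
    rw [← card_product]
    congr 1
    ext p
    simp only [mem_filter, mem_product]
    constructor
    · rintro ⟨⟨⟨h1, h2⟩, h3⟩, h4⟩
      exact ⟨⟨h1, h4⟩, ⟨h2, by rw [← h3, h4]⟩⟩
    · rintro ⟨⟨h1, h4⟩, ⟨h2, h3⟩⟩
      exact ⟨⟨⟨h1, h2⟩, by rw [h3, h4]⟩, h4⟩
  · intro p hp
    have h1 := (mem_filter.1 (mem_coe.1 hp)).1
    exact mem_coe.2 (hI _ (mem_product.1 h1).1)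

/-- the inequality between coincidences -/
theorem col_le {α β γ : Type} [DecidableEq γ] (X : Finset α) (Y : Finset β) (f : α → γ)
    (g : β → γ) (t : ℝ) (ht : 0 < t) :
    (((X ×ˢ Y).filter fun p => f p.1 = g p.2).card : ℝ) ≤
      (t * ((X ×ˢ X).filter fun p => f p.1 = f p.2).card +
        t⁻¹ * ((Y ×ˢ Y).filter fun p => g p.1 = g p.2).card) / 2 := by
  obtain ⟨I, hI⟩ : ∃ I, I = X.image f ∪ Y.image g := ⟨_, rfl⟩
  have hX : ∀ a ∈ X, f a ∈ I := fun a ha => by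
    rw [hI]; exact mem_union_left _ (mem_image_of_mem f ha)
  have hY : ∀ b ∈ Y, g b ∈ I := fun b hb => by
    rw [hI]; exact mem_union_right _ (mem_image_of_mem g hb)
  rw [col_eq X Y f g I hX, col_eq X X f f I hX, col_eq Y Y g g I hY]
  push_cast
  rw [mul_sum, mul_sum, ← sum_add_distrib, sum_div]
  refine sum_le_sum fun d _ => ?_
  obtain ⟨a, ha⟩ : ∃ a : ℝ, a = (X.filter fun x => f x = d).card := ⟨_, rfl⟩
  obtain ⟨b, hb⟩ : ∃ b : ℝ, b = (Y.filter fun y => g y = d).card := ⟨_, rfl⟩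
  rw [← ha, ← hb]
  have h1 : 0 ≤ t⁻¹ * (t * a - b) ^ 2 := by positivity
  have h2 : t⁻¹ * (t * a - b) ^ 2 = t * (a * a) + t⁻¹ * (b * b) - 2 * (a * b) := by
    field_simp
    ring
  linarith

/-- the shifted set -/
def blk (m : ℕ) (B : Finset ℕ) : Finset ℕ := B.image fun a => a + m

theorem mem_blk {m : ℕ} {B : Finset ℕ} {x : ℕ} : x ∈ blk m B ↔ m ≤ x ∧ x - m ∈ B := by
  unfold blk
  rw [mem_image]
  constructor
  · rintro ⟨a, ha, rfl⟩
    exact ⟨Nat.le_add_left _ _, by rwa [Nat.add_sub_cancel]⟩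
  · rintro ⟨h1, h2⟩
    exact ⟨x - m, h2, by omega⟩

theorem card_blk (m : ℕ) (B : Finset ℕ) : (blk m B).card = B.card :=
  card_image_of_injective _ (add_left_injective m)

/-- differences in a block -/
theorem diff_le (m k : ℕ) (B : Finset ℕ) :
    (((blk m B ×ˢ blk m B) ×ˢ (blk m B ×ˢ blk m B)).filter fun p =>
      (p.1.1 : ℤ) - p.1.2 = (p.2.1 : ℤ) - p.2.2).card ≤ (sol k B).card := by
  refine card_le_card_of_injOn (fun p => ((p.1.1 - m, p.2.2 - m), (p.2.1 - m, p.1.2 - m)))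
    ?_ ?_
  · intro p hp
    have h1 := mem_filter.1 (mem_coe.1 hp)
    rw [mem_product, mem_product, mem_product, mem_blk, mem_blk, mem_blk, mem_blk] at h1
    obtain ⟨⟨⟨a1, a2⟩, ⟨b1, b2⟩⟩, h⟩ := h1
    rw [mem_coe]
    refine mem_sol.2 ⟨⟨a1.2, b2.2⟩, ⟨b1.2, a2.2⟩, ?_⟩
    show (p.1.1 - m + (p.2.2 - m)) % k = (p.2.1 - m + (p.1.2 - m)) % k
    congr 1
    omega
  · intro p hp p' hp' h
    have h1 := mem_filter.1 (mem_coe.1 hp)
    have h2 := mem_filter.1 (mem_coe.1 hp')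
    rw [mem_product, mem_product, mem_product, mem_blk, mem_blk, mem_blk, mem_blk] at h1 h2
    obtain ⟨⟨⟨a1, a2⟩, ⟨b1, b2⟩⟩, _⟩ := h1
    obtain ⟨⟨⟨c1, c2⟩, ⟨d1, d2⟩⟩, _⟩ := h2
    simp only [Prod.mk.injEq] at h
    refine Prod.ext (Prod.ext ?_ ?_) (Prod.ext ?_ ?_) <;> omega

theorem diff_le' (m k : ℕ) (B : Finset ℕ) :
    (((blk m B ×ˢ blk m B) ×ˢ (blk m B ×ˢ blk m B)).filter fun p =>
      (p.1.2 : ℤ) - p.1.1 = (p.2.2 : ℤ) - p.2.1).card ≤ (sol k B).card := by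
  refine le_trans (le_of_eq ?_) (diff_le m k B)
  congr 1
  refine filter_congr fun p _ => ?_
  constructor <;> intro h <;> omega

/-- sums of two blocks -/
theorem sums_le (m m' : ℕ) (B B' : Finset ℕ) (k k' : ℕ) (t : ℝ) (ht : 0 < t) (x : ℕ) :
    ∑ n ∈ range x, (((blk m B ×ˢ blk m' B').filter fun p => p.1 + p.2 = n).card : ℝ) ^ 2 ≤
      (t * (sol k B).card + t⁻¹ * (sol k' B').card) / 2 := by
  obtain ⟨X, hX⟩ : ∃ X, X = blk m B ×ˢ blk m' B' := ⟨_, rfl⟩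
  obtain ⟨I, hI⟩ : ∃ I, I = range x ∪ X.image fun p => p.1 + p.2 := ⟨_, rfl⟩
  have h1 : ∑ n ∈ range x, (((blk m B ×ˢ blk m' B').filter fun p => p.1 + p.2 = n).card : ℝ) ^ 2
      ≤ (((X ×ˢ X).filter fun p => p.1.1 + p.1.2 = p.2.1 + p.2.2).card : ℝ) := by
    rw [← hX]
    have h2 := col_eq X X (fun p => p.1 + p.2) (fun p => p.1 + p.2) I fun p hp => by
      rw [hI]
      exact mem_union_right _ (mem_image_of_mem _ hp)
    rw [h2]
    push_cast
    refine le_trans ?_ (sum_le_sum_of_subset_of_nonneg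
      (by rw [hI]; exact subset_union_left : range x ⊆ I) fun _ _ _ => by positivity)
    exact sum_le_sum fun n _ => by rw [sq]
  refine h1.trans ?_
  have h3 : ((X ×ˢ X).filter fun p => p.1.1 + p.1.2 = p.2.1 + p.2.2).card ≤
      (((blk m B ×ˢ blk m B) ×ˢ (blk m' B' ×ˢ blk m' B')).filter fun p =>
        (p.1.1 : ℤ) - p.1.2 = (p.2.2 : ℤ) - p.2.1).card := by
    refine card_le_card_of_injOn (fun p => ((p.1.1, p.2.1), (p.1.2, p.2.2))) ?_ ?_
    · intro p hp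
      have h4 := mem_filter.1 (mem_coe.1 hp)
      rw [hX, mem_product, mem_product, mem_product] at h4
      rw [mem_coe, mem_filter, mem_product, mem_product, mem_product]
      refine ⟨⟨⟨h4.1.1.1, h4.1.2.1⟩, ⟨h4.1.1.2, h4.1.2.2⟩⟩, ?_⟩
      show (p.1.1 : ℤ) - p.2.1 = (p.2.2 : ℤ) - p.1.2
      have := h4.2
      omega
    · intro p _ p' _ h
      simp only [Prod.mk.injEq] at h
      exact Prod.ext (Prod.ext h.1.1 h.2.1) (Prod.ext h.1.2 h.2.2)
  have h4 := col_le (blk m B ×ˢ blk m B) (blk m' B' ×ˢ blk m' B')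
    (fun p => (p.1 : ℤ) - p.2) (fun p => (p.2 : ℤ) - p.1) t ht
  have h5 : (((X ×ˢ X).filter fun p => p.1.1 + p.1.2 = p.2.1 + p.2.2).card : ℝ) ≤
      ((((blk m B ×ˢ blk m B) ×ˢ (blk m' B' ×ˢ blk m' B')).filter fun p =>
        (p.1.1 : ℤ) - p.1.2 = (p.2.2 : ℤ) - p.2.1).card : ℝ) := by exact_mod_cast h3
  refine h5.trans (h4.trans ?_)
  have h6 : ((((blk m B ×ˢ blk m B) ×ˢ (blk m B ×ˢ blk m B)).filter fun p =>
      (p.1.1 : ℤ) - p.1.2 = (p.2.1 : ℤ) - p.2.2).card : ℝ) ≤ (sol k B).card := by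
    exact_mod_cast diff_le m k B
  have h7 : ((((blk m' B' ×ˢ blk m' B') ×ˢ (blk m' B' ×ˢ blk m' B')).filter fun p =>
      (p.1.2 : ℤ) - p.1.1 = (p.2.2 : ℤ) - p.2.1).card : ℝ) ≤ (sol k' B').card := by
    exact_mod_cast diff_le' m' k' B'
  have h8 := mul_le_mul_of_nonneg_left h6 ht.le
  have h9 := mul_le_mul_of_nonneg_left h7 (inv_pos.2 ht).le
  linarith

end Pool.Agent.Helper5.RC
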