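import Mathlib
import Pool.Agent.Helper5.RC.En
import Pool.Agent.Helper72.NS.Chains

/-!
# The tree of residue classes
-/

set_option autoImplicit false

namespace Pool.Agent.Helper5.RC

open Finset Pool.Agent.Helper72.NS

theorem exists_chain {P : ℕ → Finset ℕ → Prop} {R : ℕ → Finset ℕ → Finset ℕ → Prop}
    (T₀ : Finset ℕ) (h0 : P 0 T₀) (hs : ∀ j T, P j T → ∃ T', P (j + 1) T' ∧ R j T T') :
    ∃ T : ℕ → Finset ℕ, ∀ j, P j (T j) ∧ R j (T j) (T (j + 1)) := by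
  choose! f hf using hs
  let T : ℕ → Finset ℕ := fun j => Nat.rec T₀ (fun j t => f j t) j
  have hP : ∀ j, P j (T j) := by
    intro j
    induction j with
    | zero => exact h0
    | succ j ih => exact (hf j (T j) ih).1
  exact ⟨T, fun j => ⟨hP j, (hf j (T j) (hP j)).2⟩⟩

variable {m : ℕ → ℕ}

/-- the tree -/
theorem tree (hm : Chain m) (M : ℕ → ℕ) (hM0 : M 0 = 1) (hMp : ∀ j, 0 < M j)
    (hM : ∀ j, M (j + 1) ≤ m (j + 1) / m j * M j) :
    ∃ T : ℕ → Finset ℕ, ∀ j, (T j ⊆ range (m j) ∧ (T j).card = M j ∧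
      ((sol (m j) (T j)).card : ℝ) ≤ (1 + 4 * ∑ i ∈ range (j + 1), (m i : ℝ) / (M i : ℝ) ^ 2) *
        (M j : ℝ) ^ 4 / m j) ∧ ∀ x ∈ T (j + 1), x % m j ∈ T j := by
  refine exists_chain (P := fun j T => T ⊆ range (m j) ∧ T.card = M j ∧
      ((sol (m j) T).card : ℝ) ≤ (1 + 4 * ∑ i ∈ range (j + 1), (m i : ℝ) / (M i : ℝ) ^ 2) *
        (M j : ℝ) ^ 4 / m j) (R := fun j T T' => ∀ x ∈ T', x % m j ∈ T) {0} ?_ ?_
  · refine ⟨?_, ?_, ?_⟩
    · rw [hm.one]; simp
    · rw [hM0]; simp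
    · rw [hm.one, hM0]
      have h1 : (sol 1 {0}).card ≤ 1 := by
        have h2 : sol 1 {0} ⊆ {((0, 0), (0, 0))} := by
          intro q hq
          have h3 := mem_sol.1 hq
          simp only [mem_singleton] at h3
          rw [mem_singleton]
          exact Prod.ext (Prod.ext h3.1.1 h3.1.2) (Prod.ext h3.2.1.1 h3.2.1.2)
        exact (card_le_card h2).trans (by simp)
      have h4 : ((sol 1 {0}).card : ℝ) ≤ 1 := by exact_mod_cast h1
      have h5 : (0 : ℝ) ≤ ∑ i ∈ range (0 + 1), (m i : ℝ) / (M i : ℝ) ^ 2 := by positivity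
      simp only [Nat.cast_one, one_pow, mul_one, div_one]
      linarith
  · rintro j T ⟨hT, hc, hE⟩
    have hmj : 0 < m j := hm.pos j
    have hq : 0 < m (j + 1) / m j := Nat.div_pos (Nat.le_of_dvd (hm.pos _) (hm.dvd j)) hmj
    have hmul : m (j + 1) / m j * m j = m (j + 1) := Nat.div_mul_cancel (hm.dvd j)
    obtain ⟨S, hS, hcS, h⟩ := step (q := m (j + 1) / m j) hT (by rw [hc]; exact hMp j) hq
      (M := M (j + 1)) (by rw [hc]; exact hM j)
    rw [hmul] at h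
    refine ⟨S, ⟨?_, hcS, ?_⟩, ?_⟩
    · have := hS.trans (lift_subset _ _ _)
      rwa [hmul] at this
    · rw [hc] at h
      refine h.trans ?_
      have hmr : (0 : ℝ) < m j := by exact_mod_cast hmj
      have hmr' : (0 : ℝ) < m (j + 1) := by exact_mod_cast hm.pos _
      have hMr : (0 : ℝ) < M j := by exact_mod_cast hMp j
      have hMr' : (0 : ℝ) < M (j + 1) := by exact_mod_cast hMp _
      have hqr : ((m (j + 1) / m j : ℕ) : ℝ) = (m (j + 1) : ℝ) / m j := by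
        rw [Nat.cast_div (hm.dvd j) hmr.ne']
      rw [hqr, sum_range_succ _ (j + 1)]
      obtain ⟨K, hK⟩ : ∃ K, K = ∑ i ∈ range (j + 1), (m i : ℝ) / (M i : ℝ) ^ 2 := ⟨_, rfl⟩
      rw [← hK] at hE ⊢
      have h1 : ((sol (m j) T).card : ℝ) * (M (j + 1) : ℝ) ^ 4 /
          ((m (j + 1) : ℝ) / m j * (M j : ℝ) ^ 4) ≤
          (1 + 4 * K) * (M (j + 1) : ℝ) ^ 4 / m (j + 1) := by
        calc ((sol (m j) T).card : ℝ) * (M (j + 1) : ℝ) ^ 4 /
              ((m (j + 1) : ℝ) / m j * (M j : ℝ) ^ 4)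
            ≤ ((1 + 4 * K) * (M j : ℝ) ^ 4 / m j) * (M (j + 1) : ℝ) ^ 4 /
              ((m (j + 1) : ℝ) / m j * (M j : ℝ) ^ 4) := by
              refine div_le_div_of_nonneg_right (mul_le_mul_of_nonneg_right hE ?_) ?_ <;>
                positivity
          _ = _ := by field_simp
      have h2 : (1 + 4 * (K + (m (j + 1) : ℝ) / (M (j + 1) : ℝ) ^ 2)) *
          (M (j + 1) : ℝ) ^ 4 / m (j + 1) =
          (1 + 4 * K) * (M (j + 1) : ℝ) ^ 4 / m (j + 1) + 4 * (M (j + 1) : ℝ) ^ 2 := by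
        field_simp
        ring
      rw [h2]
      linarith
    · intro x hx
      exact (mem_filter.1 (hS hx)).2

/-- the elements of the tree reduce to elements of the tree -/
theorem tree_mod (hm : Chain m) {T : ℕ → Finset ℕ} (hT : ∀ j, T j ⊆ range (m j))
    (h : ∀ j, ∀ x ∈ T (j + 1), x % m j ∈ T j) (i : ℕ) : ∀ k, ∀ x ∈ T (i + k), x % m i ∈ T i := by
  intro k
  induction k with
  | zero =>
    intro x hx
    rw [add_zero] at hx
    rw [Nat.mod_eq_of_lt (mem_range.1 (hT i hx))]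
    exact hx
  | succ k ih =>
    intro x hx
    have h1 := ih _ (h (i + k) x hx)
    rwa [Nat.mod_mod_of_dvd] at h1
    clear h1 hx ih
    induction k with
    | zero => exact dvd_refl _
    | succ k ih => exact ih.trans (hm.dvd _)

/-- the blocks -/
theorem blocks (hm : Chain m) (M : ℕ → ℕ) (hM0 : M 0 = 1) (hMp : ∀ j, 0 < M j)
    (hM : ∀ j, M (j + 1) ≤ m (j + 1) / m j * M j) (σ : ℝ)
    (hσ : ∀ n, ∑ i ∈ range n, (m i : ℝ) / (M i : ℝ) ^ 2 ≤ σ) :
    ∃ T B : ℕ → Finset ℕ, (∀ j, T j ⊆ range (m j) ∧ (T j).card = M j ∧ B j ⊆ T j ∧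
      (m j : ℝ) ≤ σ * ((B j).card : ℝ) ^ 2 ∧ ((B j).card : ℝ) ^ 2 ≤ 4 * m j ∧
      ((sol (m j) (B j)).card : ℝ) ≤ (32 + 64 * σ) * m j) ∧
      ∀ i j, i ≤ j → ∀ x ∈ T j, x % m i ∈ T i := by
  obtain ⟨T, hT⟩ := tree hm M hM0 hMp hM
  have hσ1 : 1 ≤ σ := by
    have := hσ 1
    simp only [range_one, sum_singleton, hm.one, hM0, Nat.cast_one, one_pow, div_one] at this
    exact this
  have hex : ∀ j, ∃ B ⊆ T j, B.card = min (M j) (Nat.sqrt (m j) + 1) ∧
      ((sol (m j) B).card : ℝ) ≤ (sol (m j) (T j)).card *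
        ((min (M j) (Nat.sqrt (m j) + 1) : ℕ) : ℝ) ^ 4 / ((T j).card : ℝ) ^ 4 +
        4 * ((min (M j) (Nat.sqrt (m j) + 1) : ℕ) : ℝ) ^ 2 := fun j =>
    exists_sub (hT j).1.1 (by rw [(hT j).1.2.1]; exact min_le_left _ _)
      (by rw [(hT j).1.2.1]; exact hMp j)
  choose B hB hcB hEB using hex
  refine ⟨T, B, fun j => ⟨(hT j).1.1, (hT j).1.2.1, hB j, ?_, ?_, ?_⟩, fun i j hij x hx => ?_⟩
  · rw [hcB j]
    have hm0 : (0 : ℝ) < m j := by exact_mod_cast hm.pos j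
    rcases min_choice (M j) (Nat.sqrt (m j) + 1) with h | h
    · rw [h]
      have h1 : (m j : ℝ) / (M j : ℝ) ^ 2 ≤ σ := by
        refine le_trans ?_ (hσ (j + 1))
        exact single_le_sum (f := fun i => (m i : ℝ) / (M i : ℝ) ^ 2)
          (fun i _ => by positivity) (self_mem_range_succ j)
      have hMr : (0 : ℝ) < M j := by exact_mod_cast hMp j
      rwa [div_le_iff₀ (by positivity)] at h1
    · rw [h]
      have h1 : m j < (Nat.sqrt (m j) + 1) ^ 2 := by rw [sq]; exact Nat.lt_succ_sqrt _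
      have h2 : (m j : ℝ) ≤ ((Nat.sqrt (m j) + 1 : ℕ) : ℝ) ^ 2 := by exact_mod_cast h1.le
      have h3 : (0 : ℝ) ≤ ((Nat.sqrt (m j) + 1 : ℕ) : ℝ) ^ 2 := by positivity
      nlinarith
  · rw [hcB j]
    have h1 : min (M j) (Nat.sqrt (m j) + 1) ≤ 2 * Nat.sqrt (m j) := by
      have : 1 ≤ Nat.sqrt (m j) := Nat.sqrt_pos.2 (hm.pos j)
      have := min_le_right (M j) (Nat.sqrt (m j) + 1)
      omega
    have h2 : (min (M j) (Nat.sqrt (m j) + 1)) ^ 2 ≤ 4 * m j := by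
      calc (min (M j) (Nat.sqrt (m j) + 1)) ^ 2 ≤ (2 * Nat.sqrt (m j)) ^ 2 :=
            Nat.pow_le_pow_left h1 2
        _ = 4 * (Nat.sqrt (m j) ^ 2) := by ring
        _ ≤ 4 * m j := Nat.mul_le_mul_left _ (Nat.sqrt_le' _)
    exact_mod_cast h2
  · obtain ⟨b, hb⟩ : ∃ b, b = min (M j) (Nat.sqrt (m j) + 1) := ⟨_, rfl⟩
    have h := hEB j
    rw [← hb] at h
    have h1 : (b : ℝ) ^ 2 ≤ 4 * m j := by
      have h1 : b ≤ 2 * Nat.sqrt (m j) := by
        have : 1 ≤ Nat.sqrt (m j) := Nat.sqrt_pos.2 (hm.pos j)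
        have := min_le_right (M j) (Nat.sqrt (m j) + 1)
        omega
      have h2 : b ^ 2 ≤ 4 * m j := by
        calc b ^ 2 ≤ (2 * Nat.sqrt (m j)) ^ 2 := Nat.pow_le_pow_left h1 2
          _ = 4 * (Nat.sqrt (m j) ^ 2) := by ring
          _ ≤ 4 * m j := Nat.mul_le_mul_left _ (Nat.sqrt_le' _)
      exact_mod_cast h2
    refine h.trans ?_
    have hm0 : (0 : ℝ) < m j := by exact_mod_cast hm.pos j
    have hMr : (0 : ℝ) < M j := by exact_mod_cast hMp j
    rw [(hT j).1.2.1]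
    have h2 := (hT j).1.2.2
    have h3 : ((sol (m j) (T j)).card : ℝ) ≤ (1 + 4 * σ) * (M j : ℝ) ^ 4 / m j := by
      refine h2.trans (div_le_div_of_nonneg_right (mul_le_mul_of_nonneg_right ?_ ?_) ?_)
      · have := hσ (j + 1)
        linarith
      · positivity
      · positivity
    have h4 : ((sol (m j) (T j)).card : ℝ) * (b : ℝ) ^ 4 / (M j : ℝ) ^ 4 ≤
        (1 + 4 * σ) * (16 * m j) := by
      calc ((sol (m j) (T j)).card : ℝ) * (b : ℝ) ^ 4 / (M j : ℝ) ^ 4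
          ≤ ((1 + 4 * σ) * (M j : ℝ) ^ 4 / m j) * (b : ℝ) ^ 4 / (M j : ℝ) ^ 4 := by
            refine div_le_div_of_nonneg_right (mul_le_mul_of_nonneg_right h3 ?_) ?_ <;> positivity
        _ = (1 + 4 * σ) * ((b : ℝ) ^ 2 * (b : ℝ) ^ 2 / m j) := by field_simp
        _ ≤ (1 + 4 * σ) * ((4 * m j) * (4 * m j) / m j) := by
            refine mul_le_mul_of_nonneg_left (div_le_div_of_nonneg_right ?_ hm0.le)
              (by linarith)
            exact mul_le_mul h1 h1 (by positivity) (by positivity)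
        _ = _ := by field_simp; ring
    linarith
  · obtain ⟨k, rfl⟩ := Nat.exists_eq_add_of_le hij
    exact tree_mod hm (fun j => (hT j).1.1) (fun j => (hT j).2) i k x hx

end Pool.Agent.Helper5.RC
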