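import Mathlib
import Pool.Agent.Helper5.RC.Col
import Pool.Agent.Helper5.RC.Tree
import Pool.Agent.Helper72.NS.Sets

/-!
# The union of the blocks
-/

set_option autoImplicit false

namespace Pool.Agent.Helper5.RC

open Finset Pool.Agent.Helper72.NS

theorem geo {v : ℕ → ℝ} (h0 : ∀ j, 0 ≤ v j) (h : ∀ j, 7 / 6 * v j ≤ v (j + 1)) (i : ℕ) :
    ∑ j ∈ range i, v j ≤ 6 * v i := by
  induction i with
  | zero => rw [range_zero, sum_empty]; have := h0 0; linarith
  | succ i ih =>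
    rw [sum_range_succ]
    have := h i
    linarith

variable {m : ℕ → ℕ}

theorem Chain_le (hm : Chain m) {i j : ℕ} (h : i ≤ j) : m i ≤ m j :=
  Nat.le_of_dvd (hm.pos j) (hm.dvd' h)

theorem Chain_pow (hm : Chain m) (j : ℕ) : 2 ^ j ≤ m j := by
  induction j with
  | zero => rw [hm.one]; norm_num
  | succ j ih =>
    have := hm.two j
    rw [pow_succ]
    omega

/-- the fourth root -/
noncomputable def uu (m : ℕ → ℕ) (j : ℕ) : ℝ := Real.sqrt (Real.sqrt (m j))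

theorem uu_pos (hm : Chain m) (j : ℕ) : 0 < uu m j := by
  unfold uu
  have : (0 : ℝ) < m j := by exact_mod_cast hm.pos j
  positivity

theorem uu_sq (j : ℕ) : uu m j ^ 2 = Real.sqrt (m j) := by
  unfold uu
  exact Real.sq_sqrt (Real.sqrt_nonneg _)

theorem uu_four (j : ℕ) : uu m j ^ 4 = m j := by
  rw [show (4 : ℕ) = 2 * 2 from rfl, pow_mul, uu_sq]
  exact Real.sq_sqrt (Nat.cast_nonneg _)

theorem uu_step (hm : Chain m) (j : ℕ) : 7 / 6 * uu m j ≤ uu m (j + 1) := by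
  have h1 := uu_pos hm j
  have h2 := uu_pos hm (j + 1)
  refine le_of_pow_le_pow_left₀ (n := 4) (by norm_num) h2.le ?_
  rw [mul_pow, uu_four, uu_four]
  have h3 : (2 : ℝ) * m j ≤ m (j + 1) := by exact_mod_cast hm.two j
  have h4 : (0 : ℝ) ≤ m j := Nat.cast_nonneg _
  have h5 : ((7 : ℝ) / 6) ^ 4 ≤ 2 := by norm_num
  nlinarith

theorem sqrt_step (hm : Chain m) (j : ℕ) :
    7 / 6 * Real.sqrt (m j) ≤ Real.sqrt (m (j + 1)) := by
  rw [← uu_sq, ← uu_sq]
  have h1 := uu_pos hm j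
  have h2 := uu_step hm j
  nlinarith

/-- the set -/
def AA (m : ℕ → ℕ) (B : ℕ → Finset ℕ) : Set ℕ := {n | ∃ j, n ∈ blk (m j) (B j)}

theorem rep_le (hm : Chain m) (B : ℕ → Finset ℕ) (J n : ℕ) (hn : n < m J) :
    rep (AA m B) n ≤ ∑ p ∈ range J ×ˢ range J,
      ((blk (m p.1) (B p.1) ×ˢ blk (m p.2) (B p.2)).filter fun q => q.1 + q.2 = n).card := by
  classical
  have h1 : {q : ℕ × ℕ | q.1 ∈ AA m B ∧ q.2 ∈ AA m B ∧ q.1 + q.2 = n} ⊆
      (((range J ×ˢ range J).biUnion fun p =>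
        (blk (m p.1) (B p.1) ×ˢ blk (m p.2) (B p.2)).filter fun q => q.1 + q.2 = n :
          Finset (ℕ × ℕ)) : Set (ℕ × ℕ)) := by
    rintro q ⟨⟨i, hi⟩, ⟨j, hj⟩, hq⟩
    rw [mem_coe, mem_biUnion]
    have hi' : i < J := by
      by_contra hcon
      have := Chain_le hm (not_lt.1 hcon)
      have := (mem_blk.1 hi).1
      omega
    have hj' : j < J := by
      by_contra hcon
      have := Chain_le hm (not_lt.1 hcon)
      have := (mem_blk.1 hj).1
      omega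
    refine ⟨(i, j), mem_product.2 ⟨mem_range.2 hi', mem_range.2 hj'⟩, ?_⟩
    rw [mem_filter, mem_product]
    exact ⟨⟨hi, hj⟩, hq⟩
  unfold rep
  refine (Set.ncard_le_ncard h1 (finite_toSet _)).trans ?_
  rw [Set.ncard_coe_finset]
  exact card_biUnion_le

theorem mean_sq (hm : Chain m) {B : ℕ → Finset ℕ} {D : ℝ}
    (hE : ∀ j, ((sol (m j) (B j)).card : ℝ) ≤ D * m j) (J x : ℕ) (hx : x ≤ m J) :
    ∑ n ∈ range x, (rep (AA m B) n : ℝ) ^ 2 ≤ D * (∑ i ∈ range J, uu m i) ^ 4 := by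
  have hD : 0 ≤ D := by
    have h1 := hE 0
    rw [hm.one, Nat.cast_one, mul_one] at h1
    exact le_trans (Nat.cast_nonneg _) h1
  obtain ⟨r, hr⟩ : ∃ r : ℕ × ℕ → ℕ → ℝ, r = fun p n =>
    (((blk (m p.1) (B p.1) ×ˢ blk (m p.2) (B p.2)).filter fun q => q.1 + q.2 = n).card : ℝ) :=
    ⟨_, rfl⟩
  have h1 : ∀ n ∈ range x, (rep (AA m B) n : ℝ) ≤ ∑ p ∈ range J ×ˢ range J, r p n := by
    intro n hn
    rw [mem_range] at hn
    have h2 : (rep (AA m B) n : ℝ) ≤ ((∑ p ∈ range J ×ˢ range J,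
        ((blk (m p.1) (B p.1) ×ˢ blk (m p.2) (B p.2)).filter
          fun q => q.1 + q.2 = n).card : ℕ) : ℝ) :=
      Nat.cast_le.2 (rep_le hm B J n (by omega))
    rw [Nat.cast_sum] at h2
    rw [hr]
    exact h2
  rcases Nat.eq_zero_or_pos J with hJ | hJ
  · rw [hJ, range_zero, sum_empty]
    refine le_of_eq ?_
    rw [zero_pow (by norm_num), mul_zero]
    refine sum_eq_zero fun n hn => ?_
    have h2 := h1 n hn
    rw [hJ, range_zero, empty_product, sum_empty] at h2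
    have h3 : (0 : ℝ) ≤ rep (AA m B) n := Nat.cast_nonneg _
    have h4 : (rep (AA m B) n : ℝ) = 0 := le_antisymm h2 h3
    rw [h4]
    norm_num
  obtain ⟨w, hw⟩ : ∃ w : ℕ × ℕ → ℝ, w = fun p => uu m p.1 * uu m p.2 := ⟨_, rfl⟩
  have hw0 : ∀ p, 0 < w p := by
    intro p
    rw [hw]
    exact mul_pos (uu_pos hm _) (uu_pos hm _)
  have hne : (range J ×ˢ range J).Nonempty := by
    rw [nonempty_product]
    exact ⟨nonempty_range_iff.2 (by omega), nonempty_range_iff.2 (by omega)⟩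
  have hW : 0 < ∑ p ∈ range J ×ˢ range J, w p := sum_pos (fun p _ => hw0 p) hne
  have h2 : ∀ n ∈ range x, (rep (AA m B) n : ℝ) ^ 2 ≤
      (∑ p ∈ range J ×ˢ range J, w p) * ∑ p ∈ range J ×ˢ range J, r p n ^ 2 / w p := by
    intro n hn
    have h3 := sq_sum_div_le_sum_sq_div (range J ×ˢ range J) (fun p => r p n)
      (g := w) fun p _ => hw0 p
    rw [div_le_iff₀ hW, mul_comm] at h3
    refine le_trans ?_ h3
    exact pow_le_pow_left₀ (Nat.cast_nonneg _) (h1 n hn) 2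
  refine (sum_le_sum h2).trans ?_
  rw [← mul_sum, sum_comm]
  have h3 : ∀ p ∈ range J ×ˢ range J, ∑ n ∈ range x, r p n ^ 2 / w p ≤ D * w p := by
    intro p _
    rw [← sum_div, div_le_iff₀ (hw0 p)]
    have hi := uu_pos hm p.1
    have hj := uu_pos hm p.2
    have h4 := sums_le (m p.1) (m p.2) (B p.1) (B p.2) (m p.1) (m p.2)
      (uu m p.2 ^ 2 / uu m p.1 ^ 2) (by positivity) x
    have h5 : ∑ n ∈ range x, r p n ^ 2 = ∑ n ∈ range x,
        (((blk (m p.1) (B p.1) ×ˢ blk (m p.2) (B p.2)).filter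
          fun q => q.1 + q.2 = n).card : ℝ) ^ 2 := by rw [hr]
    rw [h5]
    refine h4.trans ?_
    have e1 : ((sol (m p.1) (B p.1)).card : ℝ) ≤ D * uu m p.1 ^ 4 := by
      rw [uu_four]; exact hE p.1
    have e2 : ((sol (m p.2) (B p.2)).card : ℝ) ≤ D * uu m p.2 ^ 4 := by
      rw [uu_four]; exact hE p.2
    have e3 := mul_le_mul_of_nonneg_left e1
      (by positivity : 0 ≤ uu m p.2 ^ 2 / uu m p.1 ^ 2)
    have e4 := mul_le_mul_of_nonneg_left e2
      (by positivity : 0 ≤ (uu m p.2 ^ 2 / uu m p.1 ^ 2)⁻¹)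
    have e5 : uu m p.2 ^ 2 / uu m p.1 ^ 2 * (D * uu m p.1 ^ 4) =
        D * (uu m p.1 ^ 2 * uu m p.2 ^ 2) := by field_simp
    have e6 : (uu m p.2 ^ 2 / uu m p.1 ^ 2)⁻¹ * (D * uu m p.2 ^ 4) =
        D * (uu m p.1 ^ 2 * uu m p.2 ^ 2) := by field_simp
    rw [e5] at e3
    rw [e6] at e4
    have e7 : D * w p * w p = D * (uu m p.1 ^ 2 * uu m p.2 ^ 2) := by rw [hw]; ring
    rw [e7]
    linarith
  have h4 := sum_le_sum h3
  rw [← mul_sum] at h4
  have h5 := mul_le_mul_of_nonneg_left h4 hW.le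
  refine h5.trans (le_of_eq ?_)
  have e : ∑ p ∈ range J ×ˢ range J, w p = (∑ i ∈ range J, uu m i) ^ 2 := by
    rw [hw, sum_product, sq, sum_mul_sum]
  rw [e]
  ring

/-- the mean square -/
theorem mean_square (hm : Chain m) {B : ℕ → Finset ℕ} {D : ℝ}
    (hE : ∀ j, ((sol (m j) (B j)).card : ℝ) ≤ D * m j) (x : ℕ) :
    ∑ n ∈ range x, (rep (AA m B) n : ℝ) ^ 2 ≤ 2401 * D * x := by
  have hD : 0 ≤ D := by
    have h1 := hE 0
    rw [hm.one, Nat.cast_one, mul_one] at h1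
    exact le_trans (Nat.cast_nonneg _) h1
  have hex : ∃ j, x ≤ m j := ⟨x, (Nat.lt_two_pow_self).le.trans (Chain_pow hm x)⟩
  classical
  obtain ⟨J, hJ, hmin⟩ : ∃ J, x ≤ m J ∧ ∀ j < J, m j < x := by
    refine ⟨Nat.find hex, Nat.find_spec hex, fun j hj => ?_⟩
    exact not_le.1 (Nat.find_min hex hj)
  refine (mean_sq hm hE J x hJ).trans ?_
  rcases Nat.eq_zero_or_pos J with h0 | h0
  · rw [h0, range_zero, sum_empty, zero_pow (by norm_num), mul_zero]
    positivity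
  · obtain ⟨K, rfl⟩ : ∃ K, J = K + 1 := ⟨J - 1, by omega⟩
    have h1 := hmin K (by omega)
    have h2 := geo (fun j => (uu_pos hm j).le) (uu_step hm) K
    have h3 : ∑ i ∈ range (K + 1), uu m i ≤ 7 * uu m K := by
      rw [sum_range_succ]; linarith
    have h4 : 0 ≤ ∑ i ∈ range (K + 1), uu m i := sum_nonneg fun i _ => (uu_pos hm i).le
    have h5 := pow_le_pow_left₀ h4 h3 4
    rw [mul_pow, uu_four] at h5
    have h6 : (m K : ℝ) ≤ x := by exact_mod_cast h1.le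
    calc D * (∑ i ∈ range (K + 1), uu m i) ^ 4 ≤ D * (7 ^ 4 * m K) :=
          mul_le_mul_of_nonneg_left h5 hD
      _ ≤ D * (7 ^ 4 * x) := mul_le_mul_of_nonneg_left (by linarith) hD
      _ = 2401 * D * x := by ring

/-- many elements -/
theorem many (hm : Chain m) {Q : ℕ} (hQ : ∀ j, m (j + 1) ≤ Q * m j) {B : ℕ → Finset ℕ} {σ : ℝ}
    (hB : ∀ j, B j ⊆ range (m j)) (h1 : ∀ j, (m j : ℝ) ≤ σ * ((B j).card : ℝ) ^ 2)
    (x : ℕ) (hx : 2 ≤ x) : (x : ℝ) ≤ 2 * Q * σ * (num (AA m B) x : ℝ) ^ 2 := by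
  classical
  have hex : ∃ j, x < 2 * m j := ⟨x, by
    have := (Nat.lt_two_pow_self (n := x)).trans_le (Chain_pow hm x)
    omega⟩
  obtain ⟨J, hJ, hmin⟩ : ∃ J, x < 2 * m J ∧ ∀ j < J, 2 * m j ≤ x := by
    refine ⟨Nat.find hex, Nat.find_spec hex, fun j hj => ?_⟩
    exact not_lt.1 (Nat.find_min hex hj)
  have hJ0 : J ≠ 0 := by
    intro h
    rw [h, hm.one] at hJ
    omega
  obtain ⟨K, rfl⟩ : ∃ K, J = K + 1 := ⟨J - 1, by omega⟩
  have h2 := hmin K (by omega)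
  have h3 := hQ K
  have hσ : 0 < σ := by
    have h4 := h1 0
    rw [hm.one, Nat.cast_one] at h4
    by_contra hcon
    have : σ * ((B 0).card : ℝ) ^ 2 ≤ 0 :=
      mul_nonpos_of_nonpos_of_nonneg (not_lt.1 hcon) (by positivity)
    linarith
  have h4 : (B K).card ≤ num (AA m B) x := by
    rw [← card_blk (m K), ← Set.ncard_coe_finset]
    unfold num
    refine Set.ncard_le_ncard ?_ ((Set.finite_Iio x).subset Set.inter_subset_right)
    intro a ha
    rw [mem_coe] at ha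
    refine ⟨⟨K, ha⟩, ?_⟩
    have h5 := mem_blk.1 ha
    have h6 := mem_range.1 (hB K h5.2)
    rw [Set.mem_Iio]
    omega
  have h5 : (x : ℝ) ≤ 2 * Q * m K := by
    have : x ≤ 2 * (Q * m K) := by omega
    calc (x : ℝ) ≤ ((2 * (Q * m K) : ℕ) : ℝ) := by exact_mod_cast this
      _ = _ := by push_cast; ring
  have h6 : ((B K).card : ℝ) ^ 2 ≤ (num (AA m B) x : ℝ) ^ 2 :=
    pow_le_pow_left₀ (Nat.cast_nonneg _) (by exact_mod_cast h4) 2
  calc (x : ℝ) ≤ 2 * Q * m K := h5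
    _ ≤ 2 * Q * (σ * (num (AA m B) x : ℝ) ^ 2) := by
        refine mul_le_mul_of_nonneg_left ?_ (by positivity)
        exact (h1 K).trans (mul_le_mul_of_nonneg_left h6 hσ.le)
    _ = _ := by ring

/-- few residue classes -/
theorem classes (hm : Chain m) {B T : ℕ → Finset ℕ} (hB : ∀ j, B j ⊆ T j)
    (hB4 : ∀ j, ((B j).card : ℝ) ^ 2 ≤ 4 * m j)
    (hT : ∀ i j, i ≤ j → ∀ x ∈ T j, x % m i ∈ T i) (i : ℕ) :
    (((fun a => a % m i) '' AA m B).ncard : ℝ) ≤ (T i).card + 12 * Real.sqrt (m i) := by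
  classical
  have h1 : (fun a => a % m i) '' AA m B ⊆
      ((T i ∪ (range i).biUnion fun j => (blk (m j) (B j)).image fun a => a % m i :
        Finset ℕ) : Set ℕ) := by
    rintro _ ⟨a, ⟨j, hj⟩, rfl⟩
    rw [mem_coe, mem_union]
    by_cases hij : i ≤ j
    · left
      have h2 := mem_blk.1 hj
      have h3 := hT i j hij _ (hB j h2.2)
      have h4 : a % m i = (a - m j) % m i := by
        obtain ⟨k, hk⟩ := hm.dvd' hij
        have : a = (a - m j) + m i * k := by omega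
        conv_lhs => rw [this]
        rw [Nat.add_mul_mod_self_left]
      show a % m i ∈ T i
      rw [h4]
      exact h3
    · right
      rw [mem_biUnion]
      exact ⟨j, mem_range.2 (not_le.1 hij), mem_image_of_mem _ hj⟩
  have h2 : ((fun a => a % m i) '' AA m B).ncard ≤ (T i).card + ∑ j ∈ range i, (B j).card := by
    refine (Set.ncard_le_ncard h1 (finite_toSet _)).trans ?_
    rw [Set.ncard_coe_finset]
    refine (card_union_le _ _).trans (Nat.add_le_add_left ?_ _)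
    refine card_biUnion_le.trans (sum_le_sum fun j _ => ?_)
    exact card_image_le.trans (le_of_eq (card_blk _ _))
  have h3 : ∀ j, ((B j).card : ℝ) ≤ 2 * Real.sqrt (m j) := by
    intro j
    have h4 : 2 * Real.sqrt (m j) = Real.sqrt (4 * m j) := by
      rw [Real.sqrt_mul (by norm_num)]
      have : Real.sqrt 4 = 2 := by
        rw [show (4 : ℝ) = 2 ^ 2 by norm_num]
        exact Real.sqrt_sq (by norm_num)
      rw [this]
    rw [h4]
    exact Real.le_sqrt_of_sq_le (hB4 j)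
  have h4 : ((∑ j ∈ range i, (B j).card : ℕ) : ℝ) ≤ 12 * Real.sqrt (m i) := by
    push_cast
    refine (sum_le_sum fun j _ => h3 j).trans ?_
    rw [← mul_sum]
    have := geo (v := fun j => Real.sqrt (m j)) (fun j => Real.sqrt_nonneg _) (sqrt_step hm) i
    linarith
  have h5 : (((fun a => a % m i) '' AA m B).ncard : ℝ) ≤
      (T i).card + ((∑ j ∈ range i, (B j).card : ℕ) : ℝ) := by exact_mod_cast h2
  linarith

end Pool.Agent.Helper5.RC
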