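import Mathlib
import Pool.Agent.Helper5.RC.Uni

/-!
# Sets with few residue classes
-/

set_option autoImplicit false

namespace Pool.Agent.Helper5.RC

open Finset Pool.Agent.Helper72.NS

/-- the number of classes of the tree -/
noncomputable def MM (m : ℕ → ℕ) (N : ℕ → ℝ) : ℕ → ℕ
  | 0 => 1
  | j + 1 => min (m (j + 1) / m j * MM m N j) ⌈N (j + 1)⌉₊

variable {m : ℕ → ℕ}

theorem ratio_pos (hm : Chain m) (j : ℕ) : 2 ≤ m (j + 1) / m j := by
  rw [Nat.le_div_iff_mul_le (hm.pos j)]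
  exact hm.two j

theorem MM_pos (hm : Chain m) {N : ℕ → ℝ} (hN : ∀ j, 0 < N j) (j : ℕ) : 0 < MM m N j := by
  induction j with
  | zero => exact Nat.one_pos
  | succ j ih =>
    unfold MM
    have := ratio_pos hm j
    exact lt_min (Nat.mul_pos (by omega) ih) (Nat.ceil_pos.2 (hN _))

theorem MM_le {N : ℕ → ℝ} (hN : ∀ j, 0 < N j) (j : ℕ) : (MM m N j : ℝ) ≤ N j + 1 := by
  have h1 : MM m N j ≤ ⌈N j⌉₊ := by
    cases j with
    | zero => exact Nat.ceil_pos.2 (hN _)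
    | succ j => exact min_le_right _ _
  calc (MM m N j : ℝ) ≤ ⌈N j⌉₊ := by exact_mod_cast h1
    _ ≤ N j + 1 := (Nat.ceil_lt_add_one (hN j).le).le

theorem MM_step (hm : Chain m) {N : ℕ → ℝ} (hN : ∀ j, 0 < N j) (j : ℕ) :
    (m (j + 1) : ℝ) / (MM m N (j + 1) : ℝ) ^ 2 ≤
      (m j : ℝ) / (MM m N j : ℝ) ^ 2 / 2 + (m (j + 1) : ℝ) / N (j + 1) ^ 2 := by
  have hM := MM_pos hm hN j
  have hMr : (0 : ℝ) < MM m N j := by exact_mod_cast hM
  have hmr : (0 : ℝ) < m j := by exact_mod_cast hm.pos j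
  have hmr' : (0 : ℝ) < m (j + 1) := by exact_mod_cast hm.pos (j + 1)
  have hNr := hN (j + 1)
  rcases min_choice (m (j + 1) / m j * MM m N j) ⌈N (j + 1)⌉₊ with h | h
  · have e : MM m N (j + 1) = m (j + 1) / m j * MM m N j := h
    have hq := ratio_pos hm j
    have hqr : ((m (j + 1) / m j : ℕ) : ℝ) = (m (j + 1) : ℝ) / m j := by
      rw [Nat.cast_div (hm.dvd j) hmr.ne']
    have h2 : (2 : ℝ) * m j ≤ m (j + 1) := by exact_mod_cast hm.two j
    have h1 : (m (j + 1) : ℝ) / (MM m N (j + 1) : ℝ) ^ 2 ≤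
        (m j : ℝ) / (MM m N j : ℝ) ^ 2 / 2 := by
      rw [e, Nat.cast_mul, hqr]
      have e2 : (m (j + 1) : ℝ) / ((m (j + 1) : ℝ) / m j * MM m N j) ^ 2 =
          (m j : ℝ) / (MM m N j : ℝ) ^ 2 * (m j / m (j + 1)) := by
        field_simp
      rw [e2, div_eq_mul_inv ((m j : ℝ) / (MM m N j : ℝ) ^ 2) 2]
      refine mul_le_mul_of_nonneg_left ?_ (by positivity)
      rw [div_le_iff₀ hmr']
      linarith
    have : 0 ≤ (m (j + 1) : ℝ) / N (j + 1) ^ 2 := by positivity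
    linarith
  · have e : MM m N (j + 1) = ⌈N (j + 1)⌉₊ := h
    have h1 : (m (j + 1) : ℝ) / (MM m N (j + 1) : ℝ) ^ 2 ≤ (m (j + 1) : ℝ) / N (j + 1) ^ 2 := by
      rw [e]
      refine div_le_div_of_nonneg_left hmr'.le (by positivity) ?_
      exact pow_le_pow_left₀ hNr.le (Nat.le_ceil _) 2
    have : 0 ≤ (m j : ℝ) / (MM m N j : ℝ) ^ 2 / 2 := by positivity
    linarith

theorem MM_sum (hm : Chain m) {N : ℕ → ℝ} (hN : ∀ j, 0 < N j)
    (hs : Summable fun j => (m j : ℝ) / N j ^ 2) (n : ℕ) :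
    ∑ i ∈ range n, (m i : ℝ) / (MM m N i : ℝ) ^ 2 ≤ 2 * (1 + ∑' j, (m j : ℝ) / N j ^ 2) := by
  have hτ : 0 ≤ ∑' j, (m j : ℝ) / N j ^ 2 := tsum_nonneg fun j => by
    have := hN j
    positivity
  induction n with
  | zero => rw [range_zero, sum_empty]; linarith
  | succ n ih =>
    rw [sum_range_succ']
    have h1 : ∑ i ∈ range n, (m (i + 1) : ℝ) / (MM m N (i + 1) : ℝ) ^ 2 ≤
        (∑ i ∈ range n, (m i : ℝ) / (MM m N i : ℝ) ^ 2) / 2 +
          ∑ i ∈ range n, (m (i + 1) : ℝ) / N (i + 1) ^ 2 := by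
      rw [sum_div, ← sum_add_distrib]
      exact sum_le_sum fun i _ => MM_step hm hN i
    have h2 : ∑ i ∈ range n, (m (i + 1) : ℝ) / N (i + 1) ^ 2 ≤ ∑' j, (m j : ℝ) / N j ^ 2 := by
      have h3 := hs.sum_le_tsum (range (n + 1)) fun j _ => by
        have := hN j
        positivity
      rw [sum_range_succ'] at h3
      have h4 : 0 ≤ (m 0 : ℝ) / N 0 ^ 2 := by
        have := hN 0
        positivity
      linarith
    have h3 : (m 0 : ℝ) / (MM m N 0 : ℝ) ^ 2 = 1 := by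
      rw [hm.one]
      show ((1 : ℕ) : ℝ) / ((1 : ℕ) : ℝ) ^ 2 = 1
      norm_num
    rw [h3]
    linarith

/-- **the converse**: sets with few residue classes -/
theorem few (hm : Chain m) {Q : ℕ} (hQ : ∀ j, m (j + 1) ≤ Q * m j) {N : ℕ → ℝ}
    (hN : ∀ j, 0 < N j) (hs : Summable fun j => (m j : ℝ) / N j ^ 2) :
    ∃ (A : Set ℕ) (C : ℝ), 0 < C ∧ (∀ x : ℕ, 2 ≤ x → Real.sqrt x ≤ C * num A x) ∧
      (∀ x : ℕ, ∑ n ∈ range x, (rep A n : ℝ) ^ 2 ≤ C * x) ∧
      ∀ j, (((fun a => a % m j) '' A).ncard : ℝ) ≤ C * N j := by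
  obtain ⟨τ, hτ⟩ : ∃ τ, τ = ∑' j, (m j : ℝ) / N j ^ 2 := ⟨_, rfl⟩
  have hτ0 : 0 ≤ τ := by
    rw [hτ]
    exact tsum_nonneg fun j => by
      have := hN j
      positivity
  obtain ⟨σ, hσdef⟩ : ∃ σ, σ = 2 * (1 + τ) := ⟨_, rfl⟩
  have hσ : ∀ n, ∑ i ∈ range n, (m i : ℝ) / (MM m N i : ℝ) ^ 2 ≤ σ := by
    intro n
    rw [hσdef, hτ]
    exact MM_sum hm hN hs n
  obtain ⟨T, B, hTB, hT⟩ := blocks hm (MM m N) rfl (MM_pos hm hN)
    (fun j => min_le_left _ _) σ hσ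
  have hσ0 : 0 ≤ σ := by rw [hσdef]; positivity
  have hc0 : 0 ≤ Real.sqrt (2 * Q * σ) := Real.sqrt_nonneg _
  have hc1 : 0 ≤ Real.sqrt τ := Real.sqrt_nonneg _
  refine ⟨AA m B, Real.sqrt (2 * Q * σ) + 2401 * (32 + 64 * σ) + (1 + 13 * Real.sqrt τ),
    by positivity, fun x hx => ?_, fun x => ?_, fun j => ?_⟩
  · have h1 := many hm hQ (fun j => (hTB j).2.2.1.trans (hTB j).1)
      (fun j => (hTB j).2.2.2.1) x hx
    have h2 : Real.sqrt x ≤ Real.sqrt (2 * Q * σ) * num (AA m B) x := by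
      rw [← Real.sqrt_sq (Nat.cast_nonneg (α := ℝ) (num (AA m B) x)),
        ← Real.sqrt_mul (by positivity)]
      exact Real.sqrt_le_sqrt h1
    refine h2.trans (mul_le_mul_of_nonneg_right ?_ (Nat.cast_nonneg _))
    have : 0 ≤ 2401 * (32 + 64 * σ) := by positivity
    linarith
  · have h1 := mean_square hm (fun j => (hTB j).2.2.2.2.2) x
    refine h1.trans (mul_le_mul_of_nonneg_right ?_ (Nat.cast_nonneg _))
    linarith
  · have h1 := classes hm (fun j => (hTB j).2.2.1) (fun j => (hTB j).2.2.2.2.1) hT j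
    rw [(hTB j).2.1] at h1
    have h2 := MM_le (m := m) hN j
    have hNj := hN j
    have h3 : (m j : ℝ) ≤ τ * N j ^ 2 := by
      have h4 : (m j : ℝ) / N j ^ 2 ≤ τ := by
        rw [hτ]
        exact hs.le_tsum j fun i _ => by
          have := hN i
          positivity
      rwa [div_le_iff₀ (by positivity)] at h4
    have h4 : Real.sqrt (m j) ≤ Real.sqrt τ * N j := by
      rw [← Real.sqrt_sq hNj.le, ← Real.sqrt_mul hτ0]
      exact Real.sqrt_le_sqrt h3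
    have h5 : 1 ≤ Real.sqrt (m j) := by
      rw [Real.one_le_sqrt]
      exact_mod_cast hm.pos j
    have h6 : (((fun a => a % m j) '' AA m B).ncard : ℝ) ≤ (1 + 13 * Real.sqrt τ) * N j := by
      have : (1 + 13 * Real.sqrt τ) * N j = N j + 13 * (Real.sqrt τ * N j) := by ring
      rw [this]
      linarith
    refine h6.trans (mul_le_mul_of_nonneg_right ?_ hNj.le)
    have : 0 ≤ 2401 * (32 + 64 * σ) := by positivity
    linarith

end Pool.Agent.Helper5.RC
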