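import Mathlib
import Pool.Agent.Helper5.RC.Few
import Pool.Agent.Helper3.RC.Chain

/-!
# The possible numbers of residue classes, exactly
-/

set_option autoImplicit false

namespace Pool.Agent.Helper5.RC

open Finset Filter

theorem rep_eq (A : Set ℕ) (n : ℕ) :
    Pool.Agent.Helper72.NS.rep A n = Pool.Agent.Helper25.RC.rep A n := by
  classical
  unfold Pool.Agent.Helper72.NS.rep Pool.Agent.Helper25.RC.rep
  rw [← Set.ncard_coe_finset]
  congr 1
  ext q
  rw [Set.mem_setOf_eq, mem_coe, mem_filter, HasAntidiagonal.mem_antidiagonal]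
  constructor
  · rintro ⟨h1, h2, h3⟩
    exact ⟨h3, h1, h2⟩
  · rintro ⟨h3, h1, h2⟩
    exact ⟨h1, h2, h3⟩

theorem num_eq (A : Set ℕ) (x : ℕ) :
    Pool.Agent.Helper72.NS.num A x = (Pool.Agent.Helper25.RC.below A x).card := by
  classical
  unfold Pool.Agent.Helper72.NS.num Pool.Agent.Helper25.RC.below
  rw [← Set.ncard_coe_finset]
  congr 1
  ext n
  rw [Set.mem_inter_iff, Set.mem_Iio, mem_coe, mem_filter, mem_range]
  exact and_comm

open Pool.Agent.Helper25.RC Pool.Agent.Helper3.RC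

/-- the chain with an additional first member -/
def shm (m : ℕ → ℕ) : ℕ → ℕ
  | 0 => 1
  | j + 1 => m j

/-- the sequence with an additional first member -/
def shN (N : ℕ → ℝ) : ℕ → ℝ
  | 0 => 1
  | j + 1 => N j

/-- every sequence with a convergent sum is possible -/
theorem sharp {m : ℕ → ℕ} (hm : Pool.Agent.Helper3.RC.Chain m) {Q : ℕ}
    (hQ : ∀ j, m (j + 1) ≤ Q * m j) {N : ℕ → ℝ} (hN : ∀ j, 0 < N j)
    (hs : Summable fun j => (m j : ℝ) / N j ^ 2) :
    ∃ (A : Set ℕ) (C : ℝ), 0 < C ∧ (∀ x : ℕ, 2 ≤ x → √(x : ℝ) ≤ C * #(below A x)) ∧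
      (∀ x : ℕ, ∑ n ∈ range x, (rep A n : ℝ) ^ 2 ≤ C * x) ∧
      ∀ j, (((fun a => a % m j) '' A).ncard : ℝ) ≤ C * N j := by
  have key : ∀ (m : ℕ → ℕ), Pool.Agent.Helper72.NS.Chain m → ∀ (Q : ℕ),
      (∀ j, m (j + 1) ≤ Q * m j) → ∀ (N : ℕ → ℝ), (∀ j, 0 < N j) →
      (Summable fun j => (m j : ℝ) / N j ^ 2) →
      ∃ (A : Set ℕ) (C : ℝ), 0 < C ∧ (∀ x : ℕ, 2 ≤ x → √(x : ℝ) ≤ C * #(below A x)) ∧
      (∀ x : ℕ, ∑ n ∈ range x, (rep A n : ℝ) ^ 2 ≤ C * x) ∧
      ∀ j, (((fun a => a % m j) '' A).ncard : ℝ) ≤ C * N j := by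
    intro m hm Q hQ N hN hs
    obtain ⟨A, C, hC, h1, h2, h3⟩ := few hm hQ hN hs
    refine ⟨A, C, hC, fun x hx => ?_, fun x => ?_, h3⟩
    · rw [← num_eq]
      exact h1 x hx
    · simp_rw [← rep_eq]
      exact h2 x
  rcases Nat.lt_or_ge 1 (m 0) with h0 | h0
  · have hm' : Pool.Agent.Helper72.NS.Chain (shm m) := by
      refine ⟨rfl, fun j => ?_, fun j => ?_⟩
      · cases j with
        | zero => exact one_dvd _
        | succ j => exact hm.dvd j
      · cases j with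
        | zero => show 2 * 1 ≤ m 0; omega
        | succ j => exact hm.two j
    have hQ' : ∀ j, shm m (j + 1) ≤ max Q (m 0) * shm m j := by
      intro j
      cases j with
      | zero => show m 0 ≤ max Q (m 0) * 1; rw [mul_one]; exact le_max_right _ _
      | succ j => exact (hQ j).trans (Nat.mul_le_mul_right _ (le_max_left _ _))
    have hN' : ∀ j, 0 < shN N j := by
      intro j
      cases j with
      | zero => exact one_pos
      | succ j => exact hN j
    have hs' : Summable fun j => (shm m j : ℝ) / shN N j ^ 2 := by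
      rw [← summable_nat_add_iff 1]
      exact hs
    obtain ⟨A, C, hC, h1, h2, h3⟩ := key (shm m) hm' (max Q (m 0)) hQ' (shN N) hN' hs'
    exact ⟨A, C, hC, h1, h2, fun j => h3 (j + 1)⟩
  · exact key m ⟨by have := hm.pos; omega, hm.dvd, hm.two⟩ Q hQ N hN hs

/-- the bounds for the numbers of residue classes, exactly -/
theorem sharp_iff {m : ℕ → ℕ} (hm : Pool.Agent.Helper3.RC.Chain m) {Q : ℕ}
    (hQ : ∀ j, m (j + 1) ≤ Q * m j) {N : ℕ → ℝ} (hN : ∀ j, 0 < N j) :
    (∃ (A : Set ℕ) (C : ℝ), (∀ x : ℕ, 2 ≤ x → √(x : ℝ) ≤ C * #(below A x)) ∧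
      (∀ x : ℕ, ∑ n ∈ range x, (rep A n : ℝ) ^ 2 ≤ C * x) ∧
      ∀ j, (((fun a => a % m j) '' A).ncard : ℝ) ≤ C * N j) ↔
    Summable fun j => (m j : ℝ) / N j ^ 2 := by
  constructor
  · rintro ⟨A, C, h1, h2, h3⟩
    have hC : 0 < C := by
      by_contra hcon
      have h4 := h1 2 le_rfl
      have h5 : C * #(below A 2) ≤ 0 :=
        mul_nonpos_of_nonpos_of_nonneg (not_lt.1 hcon) (Nat.cast_nonneg _)
      have h6 : 0 < √((2 : ℕ) : ℝ) := Real.sqrt_pos.2 (by norm_num)
      linarith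
    have hA : ¬ Null A := by
      intro hnull
      have h4 := hnull (1 / (2 * C)) (by positivity)
      obtain ⟨x, hx, hx2⟩ := (h4.and (eventually_ge_atTop 2)).exists
      have h5 := h1 x hx2
      have h6 : 0 < √(x : ℝ) := Real.sqrt_pos.2 (by exact_mod_cast (by omega : 0 < x))
      have h7 := mul_le_mul_of_nonneg_left hx hC.le
      have h8 : C * (1 / (2 * C) * √(x : ℝ)) = √(x : ℝ) / 2 := by
        field_simp
      linarith
    have h4 := chain_summable_classes hA (K := C) (Eventually.of_forall h2) hm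
    refine Summable.of_nonneg_of_le (fun j => by positivity) (fun j => ?_) (h4.mul_left (C ^ 2))
    have hNj := hN j
    have h5 : (0 : ℝ) < ((fun a => a % m j) '' A).ncard := by
      have h6 : 0 < nu A (m j) := nu_pos hA (hm.pos' j)
      exact_mod_cast lt_of_lt_of_le h6 (nu_le_classes A (hm.pos' j))
    have h6 := pow_le_pow_left₀ h5.le (h3 j) 2
    rw [← mul_div_assoc, div_le_div_iff₀ (by positivity) (by positivity)]
    calc (m j : ℝ) * (((fun a => a % m j) '' A).ncard : ℝ) ^ 2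
        ≤ (m j : ℝ) * (C * N j) ^ 2 := mul_le_mul_of_nonneg_left h6 (Nat.cast_nonneg _)
      _ = _ := by ring
  · intro hs
    obtain ⟨A, C, _, h1, h2, h3⟩ := sharp hm hQ hN hs
    exact ⟨A, C, h1, h2, h3⟩

end Pool.Agent.Helper5.RC
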